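import Pool.Agent.X304.Mul.Main

/-!
# Multiplication in `C(X, ℂ)` is uniformly open if `dim X ≤ 1`

If `dim X ≤ 1` then nonvanishing functions are dense in `C(X, ℂ)`.  Given `f`, `g`, `h` with `h`
close to `f g`, replace `h` by a nonvanishing `h`.  The function
`λ f + (1 - λ) h conj(g)`, where `λ` is `1` if `|g| ≤ 2 η` and `0` if `|g| ≥ 3 η`, does not
vanish where `|f| ≥ 2 η` or `|g| ≥ 3 η`; let `p` be the phase of a nonvanishing function close to
it and `a = max (|f| - η³/4) (|h|/(|g| + η))`.  Then `f₁ = a p` and `g₁ = h/f₁` are close to `f` and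
`g`.  An iteration gives the exact factorisation of a general `h`.
-/

set_option autoImplicit false

open Pool.Agent.X304.Mul
open scoped Pointwise

universe u

/-- For every `ε > 0` there is `δ > 0` such that for every compact Hausdorff space `X` of covering
dimension at most one and all `f`, `g` in the closed unit ball of `C(X, ℂ)` the ball of radius `δ`
about `f g` is contained in the product of the balls of radius `ε` about `f` and `g`; and
multiplication in `C(X, ℂ)` is an open map. -/
theorem Pool.Agent.Results.MP_64150f_an.UniformlyOpen.result :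
    (∀ ε : ℝ, 0 < ε → ∃ δ : ℝ, 0 < δ ∧
      ∀ (X : Type u) [TopologicalSpace X] [CompactSpace X] [T2Space X], CoveringDimLE X 1 →
        ∀ f g : C(X, ℂ), ‖f‖ ≤ 1 → ‖g‖ ≤ 1 →
          Metric.ball (f * g) δ ⊆ Metric.ball f ε * Metric.ball g ε) ∧
    (∀ (X : Type u) [TopologicalSpace X] [CompactSpace X] [T2Space X], CoveringDimLE X 1 →
      IsOpenMap fun p : C(X, ℂ) × C(X, ℂ) => p.1 * p.2) := by
  refine ⟨fun ε hε => ⟨(min (1 / 16) (ε / 32)) ^ 4 / 8, ?_, ?_⟩, ?_⟩
  · have : 0 < min (1 / 16) (ε / 32) := lt_min (by norm_num) (by positivity)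
    positivity
  · intro X _ _ _ hX f g hf hg
    exact ball_subset (fun f ε hε => exists_nonvanishing hX f hε) hε f g hf hg
  · intro X _ _ _ hX
    exact isOpenMap_mul (fun f ε hε => exists_nonvanishing hX f hε)
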